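import Mathlib

/-!
# Composite integer parts of powers of `4/3`: a quantitative bound

Let `a n = ⌊(4/3)^n⌋`. If `a n, …, a M` are all primes larger than `5`, then
`3 a (i+1) - 4 a i = ± 1`, and the residues modulo `5` show that the run splits into at most two
parts on which a linear form `7 a i + s` with `s` in `{-7, -1, 1, 7}` is multiplied by `4/3` in each
step, so that it is divisible by a high power of `3`. As `(4/3)^3 < 3` this bounds the length of
the run: for `n ≥ 43` not all of `a n, …, a (2n-1)` are prime. Hence at least `log₂ N - 7` of the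
numbers `a 1, …, a N` are composite.
-/

set_option autoImplicit false

namespace Pool.Agent.Results.MP_39b49d_nt.LogManyComposite

/-- the integer part of `(4/3)^n` -/
noncomputable def a (n : ℕ) : ℕ := ⌊((4 : ℝ) / 3) ^ n⌋₊

/-- the number of `n` with `1 ≤ n ≤ N` for which the integer part of `(4/3)^n` is composite -/
noncomputable def C (N : ℕ) : ℕ := {n : ℕ | 1 ≤ n ∧ n ≤ N ∧ 1 < a n ∧ ¬ (a n).Prime}.ncard

theorem a_eq (n : ℕ) : a n = 4 ^ n / 3 ^ n := by
  unfold a
  rw [div_pow]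
  have := Nat.floor_div_eq_div (K := ℝ) (4 ^ n) (3 ^ n)
  push_cast at this
  exact this

theorem a_lo (n : ℕ) : 3 ^ n * a n ≤ 4 ^ n := by
  rw [a_eq]
  exact Nat.mul_div_le _ _

theorem a_hi (n : ℕ) : 4 ^ n < 3 ^ n * (a n + 1) := by
  rw [a_eq]
  exact Nat.lt_mul_div_succ _ (by positivity)

theorem rec_up (n : ℕ) : 3 * a (n + 1) < 4 * a n + 4 := by
  have h1 := a_hi n
  have h2 := a_lo (n + 1)
  rw [pow_succ, pow_succ] at h2
  have h3 : 3 ^ n * (3 * a (n + 1)) < 3 ^ n * (4 * a n + 4) := by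
    calc 3 ^ n * (3 * a (n + 1)) = 3 ^ n * 3 * a (n + 1) := by ring
      _ ≤ 4 ^ n * 4 := h2
      _ < 3 ^ n * (a n + 1) * 4 := by omega
      _ = _ := by ring
  exact lt_of_mul_lt_mul_left h3 (Nat.zero_le _)

theorem rec_lo (n : ℕ) : 4 * a n < 3 * a (n + 1) + 3 := by
  have h1 := a_lo n
  have h2 := a_hi (n + 1)
  rw [pow_succ, pow_succ] at h2
  have h3 : 3 ^ n * (4 * a n) < 3 ^ n * (3 * a (n + 1) + 3) := by
    calc 3 ^ n * (4 * a n) = (3 ^ n * a n) * 4 := by ring
      _ ≤ 4 ^ n * 4 := by omega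
      _ < 3 ^ n * 3 * (a (n + 1) + 1) := h2
      _ = _ := by ring
  exact lt_of_mul_lt_mul_left h3 (Nat.zero_le _)

theorem a_ge (n : ℕ) (hn : 7 ≤ n) : 7 ≤ a n := by
  rw [a_eq, Nat.le_div_iff_mul_le (by positivity)]
  induction n, hn using Nat.le_induction with
  | base => norm_num
  | succ n hn ih =>
    rw [pow_succ, pow_succ]
    omega

/-- the shift belonging to a residue modulo `5` -/
def sg (x : ℕ) : ℤ :=
  if x % 5 = 1 then -7 else if x % 5 = 4 then 7 else if x % 5 = 2 then 1 else -1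

/-- the linear form -/
noncomputable def q (n : ℕ) : ℤ := 7 * (a n : ℤ) + sg (a n)

/-- not divisible by 2, 3, 5 -/
def R (x : ℕ) : Prop := x % 2 = 1 ∧ x % 3 ≠ 0 ∧ x % 5 ≠ 0

theorem R_of_prime {p : ℕ} (hp : p.Prime) (h7 : 7 ≤ p) : R p := by
  refine ⟨?_, ?_, ?_⟩
  · rcases hp.eq_two_or_odd with h | h
    · omega
    · exact h
  · intro h
    have := (Nat.prime_dvd_prime_iff_eq Nat.prime_three hp).1 (Nat.dvd_of_mod_eq_zero h)
    omega
  · intro h
    have := (Nat.prime_dvd_prime_iff_eq Nat.prime_five hp).1 (Nat.dvd_of_mod_eq_zero h)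
    omega

/-- the states with constant sign -/
def E (x : ℕ) : Prop := x % 5 = 1 ∨ x % 5 = 4

theorem rec_cases {x y : ℕ} (x2 : x % 3 ≠ 0) (y1 : y % 2 = 1) (u : 3 * y < 4 * x + 4)
    (l : 4 * x < 3 * y + 3) : 3 * y + 1 = 4 * x ∨ 3 * y = 4 * x + 1 := by
  have e1 : 3 * y ≠ 4 * x + 3 := fun h => x2 (by omega)
  have e2 : 3 * y + 2 ≠ 4 * x := fun h => by omega
  have e3 : 3 * y ≠ 4 * x := fun h => by omega
  have e4 : 3 * y ≠ 4 * x + 2 := fun h => by omega
  omega

theorem step1 (n : ℕ) (h1 : R (a n)) (h2 : R (a (n + 1))) (h : E (a n)) :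
    E (a (n + 1)) ∧ 3 * q (n + 1) = 4 * q n := by
  have u := rec_up n
  have l := rec_lo n
  obtain ⟨x1, x2, x3⟩ := h1
  obtain ⟨y1, y2, y3⟩ := h2
  unfold E at h ⊢
  unfold q sg
  generalize a n = x at *
  generalize a (n + 1) = y at *
  rcases rec_cases x2 y1 u l with hr | hr
  · clear u l
    rcases h with h | h
    · have hy : y % 5 = 1 := by omega
      refine ⟨Or.inl hy, ?_⟩
      simp only [h, hy, if_true]
      omega
    · exact absurd (show y % 5 = 0 by omega) y3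
  · clear u l
    rcases h with h | h
    · exact absurd (show y % 5 = 0 by omega) y3
    · have hy : y % 5 = 4 := by omega
      refine ⟨Or.inr hy, ?_⟩
      rw [if_neg (show ¬ (y % 5 = 1) by omega), if_pos hy, if_neg (show ¬ (x % 5 = 1) by omega),
        if_pos h]
      omega

theorem step2 (n : ℕ) (h1 : R (a n)) (h2 : R (a (n + 1))) (h : ¬ E (a n))
    (h' : ¬ E (a (n + 1))) : 3 * q (n + 1) = 4 * q n := by
  have u := rec_up n
  have l := rec_lo n
  obtain ⟨x1, x2, x3⟩ := h1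
  obtain ⟨y1, y2, y3⟩ := h2
  unfold E at h h'
  unfold q sg
  generalize a n = x at *
  generalize a (n + 1) = y at *
  rw [not_or] at h h'
  rcases rec_cases x2 y1 u l with hr | hr
  · clear u l
    have hx : x % 5 = 3 := by
      have hx : x % 5 = 2 ∨ x % 5 = 3 := by omega
      rcases hx with hx | hx
      · exact absurd (show y % 5 = 4 by omega) h'.2
      · exact hx
    have hy : y % 5 = 2 := by omega
    rw [if_neg h'.1, if_neg h'.2, if_pos hy, if_neg h.1, if_neg h.2,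
      if_neg (show ¬ (x % 5 = 2) by omega)]
    omega
  · clear u l
    have hx : x % 5 = 2 := by
      have hx : x % 5 = 2 ∨ x % 5 = 3 := by omega
      rcases hx with hx | hx
      · exact hx
      · exact absurd (show y % 5 = 1 by omega) h'.1
    have hy : y % 5 = 3 := by omega
    rw [if_neg h'.1, if_neg h'.2, if_neg (show ¬ (y % 5 = 2) by omega), if_neg h.1, if_neg h.2,
      if_pos hx]
    omega

theorem iter (u : ℕ) : ∀ j : ℕ, (∀ i < j, 3 * q (u + i + 1) = 4 * q (u + i)) →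
    (3 : ℤ) ^ j * q (u + j) = 4 ^ j * q u := by
  intro j
  induction j with
  | zero => intro _; simp
  | succ j ih =>
    intro h
    have h1 := ih (fun i hi => h i (by omega))
    have h2 := h j (by omega)
    calc (3 : ℤ) ^ (j + 1) * q (u + (j + 1)) = 3 ^ j * (3 * q (u + j + 1)) := by
          rw [pow_succ, ← add_assoc]; ring
      _ = 4 * (3 ^ j * q (u + j)) := by rw [h2]; ring
      _ = _ := by rw [h1, pow_succ]; ring

theorem q_bound (n : ℕ) : q n ≤ 7 * (a n : ℤ) + 7 := by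
  unfold q sg
  split_ifs <;> omega

theorem q_pos (n : ℕ) (h : 7 ≤ a n) : 0 < q n := by
  unfold q sg
  split_ifs <;> omega

theorem run_le (u j : ℕ) (hu : 7 ≤ u) (h : ∀ i < j, 3 * q (u + i + 1) = 4 * q (u + i)) :
    3 * j ≤ u + 9 := by
  have h1 := iter u j h
  have h2 : (3 : ℤ) ^ j ∣ 4 ^ j * q u := ⟨_, h1.symm⟩
  have hc : IsCoprime ((3 : ℤ) ^ j) (4 ^ j) := by
    apply IsCoprime.pow
    exact ⟨-1, 1, by norm_num⟩
  have h3 : (3 : ℤ) ^ j ∣ q u := hc.dvd_of_dvd_mul_left h2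
  have h4 : (3 : ℤ) ^ j ≤ q u := Int.le_of_dvd (q_pos u (a_ge u hu)) h3
  have h5 : 3 ^ j ≤ 7 * a u + 7 := by
    have := h4.trans (q_bound u)
    exact_mod_cast this
  have h6 : 3 ^ u * 3 ^ j ≤ 14 * 4 ^ u := by
    have h7 : 3 ^ u ≤ 4 ^ u := Nat.pow_le_pow_left (by norm_num) u
    have h8 := a_lo u
    calc 3 ^ u * 3 ^ j ≤ 3 ^ u * (7 * a u + 7) := Nat.mul_le_mul_left _ h5
      _ = 7 * (3 ^ u * a u) + 7 * 3 ^ u := by ring
      _ ≤ 14 * 4 ^ u := by omega
  by_contra hcon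
  push Not at hcon
  have h9 : (3 ^ u * 3 ^ j) ^ 3 ≤ (14 * 4 ^ u) ^ 3 := Nat.pow_le_pow_left h6 3
  have h10 : (3 ^ u * 3 ^ j) ^ 3 = 27 ^ u * 3 ^ (3 * j) := by
    rw [mul_pow, ← pow_mul, ← pow_mul, mul_comm u 3, pow_mul, mul_comm j 3]
    norm_num
  have h11 : (14 * 4 ^ u) ^ 3 = 2744 * 64 ^ u := by
    rw [mul_pow, ← pow_mul, mul_comm u 3, pow_mul]
    norm_num
  have h12 : 3 ^ (u + 10) ≤ 3 ^ (3 * j) := Nat.pow_le_pow_right (by norm_num) (by omega)
  have h13 : 27 ^ u * 3 ^ (u + 10) = 59049 * 81 ^ u := by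
    rw [pow_add, show (81 : ℕ) = 27 * 3 by norm_num, mul_pow]
    ring
  have h14 : 64 ^ u ≤ 81 ^ u := Nat.pow_le_pow_left (by norm_num) u
  have h15 : 0 < 64 ^ u := by positivity
  have h16 : 27 ^ u * 3 ^ (u + 10) ≤ 27 ^ u * 3 ^ (3 * j) := Nat.mul_le_mul_left _ h12
  rw [h10, h11] at h9
  omega

/-- not all of `a n, …, a (2n-1)` are prime -/
theorem exists_composite (n : ℕ) (hn : 43 ≤ n) :
    ∃ m, n ≤ m ∧ m < 2 * n ∧ ¬ (a m).Prime := by
  by_contra hcon
  push Not at hcon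
  have hR : ∀ m, n ≤ m → m < 2 * n → R (a m) := fun m h1 h2 =>
    R_of_prime (hcon m h1 h2) (a_ge m (by omega))
  by_cases hex : ∃ t, n ≤ t ∧ t < 2 * n ∧ E (a t)
  · classical
    obtain ⟨t, ht⟩ : ∃ t, t = Nat.find hex := ⟨_, rfl⟩
    obtain ⟨t1, t2, t3⟩ : n ≤ t ∧ t < 2 * n ∧ E (a t) := by rw [ht]; exact Nat.find_spec hex
    have hmin : ∀ i, n ≤ i → i < t → ¬ E (a i) := by
      intro i hi1 hi2 hE
      exact Nat.find_min hex (show i < Nat.find hex by omega) ⟨hi1, by omega, hE⟩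
    have r1 : 3 * (t - 1 - n) ≤ n + 9 := by
      refine run_le n (t - 1 - n) (by omega) fun i hi => ?_
      exact step2 (n + i) (hR _ (by omega) (by omega)) (hR _ (by omega) (by omega))
        (hmin _ (by omega) (by omega)) (hmin _ (by omega) (by omega))
    have hE : ∀ i, t + i < 2 * n → E (a (t + i)) := by
      intro i
      induction i with
      | zero => intro _; exact t3
      | succ i ih =>
        intro hi
        exact (step1 (t + i) (hR _ (by omega) (by omega)) (hR _ (by omega) (by omega))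
          (ih (by omega))).1
    have r2 : 3 * (2 * n - 1 - t) ≤ t + 9 := by
      refine run_le t (2 * n - 1 - t) (by omega) fun i hi => ?_
      exact (step1 (t + i) (hR _ (by omega) (by omega)) (hR _ (by omega) (by omega))
        (hE i (by omega))).2
    omega
  · push Not at hex
    have r1 : 3 * (n - 1) ≤ n + 9 := by
      refine run_le n (n - 1) (by omega) fun i hi => ?_
      exact step2 (n + i) (hR _ (by omega) (by omega)) (hR _ (by omega) (by omega))
        (hex _ (by omega) (by omega)) (hex _ (by omega) (by omega))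
    omega

theorem fin (N : ℕ) : {n : ℕ | 1 ≤ n ∧ n ≤ N ∧ 1 < a n ∧ ¬ (a n).Prime}.Finite :=
  (Set.finite_Iic N).subset fun _ hn => hn.2.1

theorem C_dyadic (K : ℕ) : K ≤ C (43 * 2 ^ K - 1) := by
  induction K with
  | zero => exact Nat.zero_le _
  | succ K ih =>
    have hK : 1 ≤ 2 ^ K := Nat.one_le_two_pow
    obtain ⟨m, h1, h2, h3⟩ := exists_composite (43 * 2 ^ K) (by omega)
    have hm7 := a_ge m (by omega)
    have hsub : insert m {n : ℕ | 1 ≤ n ∧ n ≤ 43 * 2 ^ K - 1 ∧ 1 < a n ∧ ¬ (a n).Prime} ⊆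
        {n : ℕ | 1 ≤ n ∧ n ≤ 43 * 2 ^ (K + 1) - 1 ∧ 1 < a n ∧ ¬ (a n).Prime} := by
      intro i hi
      rw [pow_succ]
      rcases hi with rfl | hi
      · exact ⟨by omega, by omega, by omega, h3⟩
      · obtain ⟨i1, i2, i3⟩ := hi
        exact ⟨i1, by omega, i3⟩
    have hnot : m ∉ {n : ℕ | 1 ≤ n ∧ n ≤ 43 * 2 ^ K - 1 ∧ 1 < a n ∧ ¬ (a n).Prime} := by
      rintro ⟨-, h, -⟩
      omega
    have h4 := Set.ncard_le_ncard hsub (fin _)
    rw [Set.ncard_insert_of_notMem hnot (fin _)] at h4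
    unfold C at ih ⊢
    omega

theorem C_mono {M N : ℕ} (h : M ≤ N) : C M ≤ C N :=
  Set.ncard_le_ncard (fun _ hn => ⟨hn.1, hn.2.1.trans h, hn.2.2⟩) (fin N)

/-- For every `n ≥ 43` at least one of the integer parts of `(4/3)^m`, `n ≤ m < 2n`, is composite,
and for every `N ≥ 1` at least `log₂ N - 7` of the integer parts of `(4/3)^n`, `1 ≤ n ≤ N`, are
composite. -/
theorem result :
    (∀ n : ℕ, 43 ≤ n → ∃ m, n ≤ m ∧ m < 2 * n ∧ 1 < a m ∧ ¬ (a m).Prime) ∧
      ∀ N : ℕ, 1 ≤ N → Real.logb 2 N - 7 ≤ C N := by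
  refine ⟨fun n hn => ?_, fun N hN => ?_⟩
  · obtain ⟨m, h1, h2, h3⟩ := exists_composite n hn
    have := a_ge m (by omega)
    exact ⟨m, h1, h2, by omega, h3⟩
  · have h1 : Nat.log 2 N ≤ C N + 6 := by
      by_cases h6 : Nat.log 2 N ≤ 6
      · omega
      · push Not at h6
        obtain ⟨K, hK⟩ : ∃ K, Nat.log 2 N = K + 6 := ⟨Nat.log 2 N - 6, by omega⟩
        have h2 : 2 ^ (K + 6) ≤ N := by
          rw [← hK]
          exact Nat.pow_log_le_self 2 (by omega)
        have h3 : 43 * 2 ^ K - 1 ≤ N := by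
          rw [pow_add] at h2
          omega
        have := (C_dyadic K).trans (C_mono h3)
        omega
    have h2 : (N : ℝ) < 2 ^ (Nat.log 2 N + 1) := by
      exact_mod_cast Nat.lt_pow_succ_log_self (by norm_num) N
    have h3 : Real.logb 2 N ≤ Nat.log 2 N + 1 := by
      rw [Real.logb_le_iff_le_rpow (by norm_num) (by exact_mod_cast hN)]
      have : (2 : ℝ) ^ ((Nat.log 2 N : ℝ) + 1) = 2 ^ (Nat.log 2 N + 1) := by
        rw [← Real.rpow_natCast]
        push_cast
        rfl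
      rw [this]
      exact h2.le
    have h4 : (Nat.log 2 N : ℝ) ≤ C N + 6 := by exact_mod_cast h1
    linarith

end Pool.Agent.Results.MP_39b49d_nt.LogManyComposite
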